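import Pool.Agent.Q18.KZ.S2

set_option autoImplicit false

/-! Project KZ (helper18), job LC: the light count at an end point. -/

namespace Pool.Agent.Q190.KZ

open Finset Filter Topology MeasureTheory
open Pool.Agent.Q18.KZ
open Pool.Agent.W76.MO (hh nc cell lp Rough)

noncomputable section

/-- number of integers in an interval -/
lemma card_int {Q : Finset ℕ} {c R : ℝ} (hR : 0 ≤ R) (h : ∀ q ∈ Q, |(q : ℝ) - c| ≤ R) : (Q.card : ℝ) ≤ 2 * R + 1 := by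
  rcases Q.eq_empty_or_nonempty with h0 | h0
  · rw [h0, card_empty, Nat.cast_zero]; linarith
  · have h1 : Q ⊆ Icc (Q.min' h0) (Q.max' h0) := fun q hq => mem_Icc.2 ⟨Q.min'_le q hq, Q.le_max' q hq⟩
    have h2 := card_le_card h1
    rw [Nat.card_Icc] at h2
    have h3 := abs_le.1 (h _ (Q.min'_mem h0))
    have h4 := abs_le.1 (h _ (Q.max'_mem h0))
    have h5 : Q.min' h0 ≤ Q.max' h0 := Q.min'_le _ (Q.max'_mem h0)
    have h6 : (Q.card : ℝ) ≤ (Q.max' h0 : ℝ) + 1 - (Q.min' h0 : ℝ) := by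
      have h7 : Q.card + Q.min' h0 ≤ Q.max' h0 + 1 := by omega
      have h8 : ((Q.card + Q.min' h0 : ℕ) : ℝ) ≤ ((Q.max' h0 + 1 : ℕ) : ℝ) := by exact_mod_cast h7
      push_cast at h8
      linarith
    linarith [h3.1, h4.2]

lemma hh_pos (δ : ℝ) (i : ℕ) : 0 < hh δ i := by unfold hh; positivity

lemma hh_le {δ : ℝ} (hδ : 0 < δ) (hδ' : δ ≤ 1 / 2) (i : ℕ) : (hh δ i : ℝ) ≤ (2 : ℝ) ^ ((i : ℝ) / 2) := by
  unfold hh
  push_cast
  rw [← Real.rpow_natCast]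
  apply Real.rpow_le_rpow_of_exponent_le (by norm_num)
  have h1 : (⌊(1 / 2 - δ) * (i : ℝ)⌋₊ : ℝ) ≤ (1 / 2 - δ) * i :=
    Nat.floor_le (mul_nonneg (by linarith) (Nat.cast_nonneg _))
  have h2 : 0 ≤ δ * i := mul_nonneg hδ.le (Nat.cast_nonneg _)
  linarith

lemma hh_ge {δ : ℝ} (i : ℕ) : (2 : ℝ) ^ ((1 / 2 - δ) * (i : ℝ) - 1) ≤ hh δ i := by
  unfold hh
  push_cast
  rw [← Real.rpow_natCast]
  apply Real.rpow_le_rpow_of_exponent_le (by norm_num)
  have := Nat.lt_floor_add_one ((1 / 2 - δ) * (i : ℝ))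
  linarith

/-- cells with the same element coincide -/
lemma cell_unique {δ : ℝ} {i k k' n : ℕ} (h : n ∈ cell δ i k) (h' : n ∈ cell δ i k') : k = k' := by
  unfold cell at h h'
  rw [mem_Ioc] at h h'
  have hp := hh_pos δ i
  have h1 : k * hh δ i < (k' + 1) * hh δ i := by omega
  have h2 : k' * hh δ i < (k + 1) * hh δ i := by omega
  have h3 := Nat.lt_of_mul_lt_mul_right h1
  have h4 := Nat.lt_of_mul_lt_mul_right h2
  omega

/-- cells are inside the scale -/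
lemma cell_top {δ : ℝ} {i k : ℕ} (h : k < nc δ i) : 2 ^ i + (k + 1) * hh δ i ≤ 2 ^ (i + 1) := by
  unfold nc at h
  have h1 : (k + 1) * hh δ i ≤ 2 ^ i / hh δ i * hh δ i := Nat.mul_le_mul_right _ h
  have h2 := Nat.div_mul_le_self (2 ^ i) (hh δ i)
  rw [pow_succ]
  omega

open Classical in
/-- the combinatorial core: `W` = set of the pairs, `v₀` the typical size of `v` -/
lemma core_LC (E : KEnv) {i e m : ℕ} (hi : E.i₁ ≤ i) (hm : 1 ≤ m) (he : 1 ≤ e)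
    (hbig : (2 : ℝ) ^ (0.57 * (i : ℝ) + 2) ≤ (2 : ℝ) ^ ((i : ℝ) - 1)) :
    E.cq * hh E.δ i * (∑ v ∈ VR i, (((E.B1 i).filter (fun k => v ∈ E.Us i k ∧
    |((2 : ℝ) ^ i + k * hh E.δ i) * m - v * e| ≤ (2 : ℝ) ^ (0.57 * (i : ℝ) + 2) * m)).card : ℝ)) ≤
      4 * i * ((2 : ℝ) ^ (0.57 * (i : ℝ) + 7) * (2 : ℝ) ^ ((5 / 26 - 1 / 2000) * (i : ℝ))) := by
  have hδ := E.hδ
  have hδ' : E.δ ≤ 1 / 2 := E.hδ'.trans (by norm_num)
  have hi1 : 1000 ≤ i := E.hi₁.trans hi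
  have hi0 : (0 : ℝ) < i := by exact_mod_cast (by omega : 0 < i)
  have hm0 : (0 : ℝ) < m := by exact_mod_cast hm
  have he0 : (0 : ℝ) < e := by exact_mod_cast he
  have hcq := E.hcq
  set h : ℝ := (hh E.δ i : ℝ) with hh'
  have hh0 : 0 < h := by rw [hh']; exact_mod_cast hh_pos E.δ i
  set D : ℝ := (2 : ℝ) ^ (0.57 * (i : ℝ) + 2) with hD
  have hD0 : 0 < D := by positivity
  have hhD : h ≤ D := by
    refine (hh_le hδ hδ' i).trans (Real.rpow_le_rpow_of_exponent_le (by norm_num) ?_)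
    linarith
  -- the pairs
  set W : Finset (ℕ × ℕ) := ((VR i) ×ˢ (E.B1 i)).filter (fun w => w.1 ∈ E.Us i w.2 ∧
    |((2 : ℝ) ^ i + w.2 * h) * m - w.1 * e| ≤ D * m) with hW
  have hWc : ∑ v ∈ VR i, (((E.B1 i).filter (fun k => v ∈ E.Us i k ∧
      |((2 : ℝ) ^ i + k * h) * m - v * e| ≤ D * m)).card : ℝ) = W.card := by
    have h1 : W.card = ∑ v ∈ VR i, ((E.B1 i).filter (fun k => v ∈ E.Us i k ∧
      |((2 : ℝ) ^ i + k * h) * m - v * e| ≤ D * m)).card := by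
      rw [hW, card_filter, sum_product]
      refine sum_congr rfl fun v _ => ?_
      rw [card_filter]
    rw [h1]
    push_cast
    rfl
  rw [hWc]
  set v₀ : ℝ := (2 : ℝ) ^ i * m / e with hv₀
  have hv₀0 : 0 < v₀ := by positivity
  have hpow : (2 : ℝ) ^ ((i : ℝ) - 1) = (2 : ℝ) ^ i / 2 := by
    rw [Real.rpow_sub (by norm_num), Real.rpow_natCast, Real.rpow_one]
  rw [hpow] at hbig
  -- geometry of a pair
  have hgeo : ∀ w ∈ W, w.1 ∈ VR i ∧ w.2 ∈ E.B1 i ∧ w.1 ∈ E.Us i w.2 ∧ v₀ / 4 ≤ w.1 ∧ (w.1 : ℝ) ≤ 4 * v₀ ∧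
      |((2 : ℝ) ^ i + w.2 * h) - w.1 * (e / m)| ≤ D := by
    intro w hw
    rw [hW, mem_filter, mem_product] at hw
    obtain ⟨⟨h1, h2⟩, h3, h4⟩ := hw
    have hk : w.2 < nc E.δ i := E.sub i w.2 (mem_union_left _ h2)
    have htop := cell_top (δ := E.δ) hk
    have htop' : (2 : ℝ) ^ i + (w.2 + 1) * h ≤ 2 ^ (i + 1) := by
      rw [hh']
      exact_mod_cast htop
    have hA1 : (2 : ℝ) ^ i + w.2 * h ≤ 2 * 2 ^ i := by
      rw [pow_succ] at htop'
      linarith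
    have hA2 : (2 : ℝ) ^ i ≤ (2 : ℝ) ^ i + w.2 * h := by
      have : 0 ≤ (w.2 : ℝ) * h := by positivity
      linarith
    have h5 : |((2 : ℝ) ^ i + w.2 * h) - w.1 * (e / m)| ≤ D := by
      have e1 : ((2 : ℝ) ^ i + w.2 * h) - w.1 * (e / m) = (((2 : ℝ) ^ i + w.2 * h) * m - w.1 * e) / m := by
        field_simp
      rw [e1, abs_div, abs_of_pos hm0, div_le_iff₀ hm0]
      exact h4
    have h6 := abs_le.1 h5
    have h7 : (w.1 : ℝ) * (e / m) ≤ 4 * 2 ^ i := by linarith [h6.1]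
    have h8 : (2 : ℝ) ^ i / 4 ≤ (w.1 : ℝ) * (e / m) := by
      have : 0 < (2 : ℝ) ^ i := by positivity
      linarith [h6.2]
    refine ⟨h1, h2, h3, ?_, ?_, h5⟩
    · have h9 := mul_le_mul_of_nonneg_right h8 (by positivity : 0 ≤ (m : ℝ) / e)
      have e1 : (w.1 : ℝ) * (e / m) * (m / e) = w.1 := by field_simp
      have e2 : (2 : ℝ) ^ i / 4 * (m / e) = v₀ / 4 := by rw [hv₀]; ring
      rw [e1, e2] at h9
      exact h9
    · have h9 := mul_le_mul_of_nonneg_right h7 (by positivity : 0 ≤ (m : ℝ) / e)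
      have e1 : (w.1 : ℝ) * (e / m) * (m / e) = w.1 := by field_simp
      have e2 : (4 : ℝ) * 2 ^ i * (m / e) = 4 * v₀ := by rw [hv₀]; ring
      rw [e1, e2] at h9
      exact h9
  rcases W.eq_empty_or_nonempty with hWe | hWn
  · rw [hWe, card_empty, Nat.cast_zero, mul_zero]
    positivity
  -- the size of `v₀`
  have hv₀u : v₀ ≤ 4 * (2 : ℝ) ^ (0.385 * (i : ℝ)) := by
    obtain ⟨w, hw⟩ := hWn
    obtain ⟨h1, _, _, h4, _, _⟩ := hgeo w hw
    unfold VR at h1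
    rw [mem_filter] at h1
    linarith [h1.2.2.2]
  -- the triples
  set T : Finset (Σ _ : ℕ × ℕ, ℕ) := W.sigma (fun w => LqD E.δ E.Lt i w.2 w.1) with hT
  have hTl : (W.card : ℝ) * (E.cq * h / (4 * v₀ * i)) ≤ (T.card : ℝ) := by
    rw [hT, card_sigma]
    push_cast
    rw [← nsmul_eq_mul, ← sum_const]
    refine sum_le_sum fun w hw => ?_
    obtain ⟨h1, h2, h3, _, h5, _⟩ := hgeo w hw
    have h6 := (E.us_q i hi w.2 h2 w.1 h3).1
    refine le_trans ?_ h6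
    have hw0 : (0 : ℝ) < w.1 := by
      unfold VR at h1
      rw [mem_filter] at h1
      exact_mod_cast h1.2.1.pos
    apply div_le_div_of_nonneg_left (by positivity) (by positivity)
    exact mul_le_mul_of_nonneg_right h5 hi0.le
  set n₁ : ℕ := ⌊(2 : ℝ) ^ ((5 / 26 - 1 / 2000) * (i : ℝ))⌋₊ with hn₁
  have hTu : T.card ≤ n₁ * (T.image (fun t => t.2)).card := by
    refine card_le_mul_card_image _ _ fun q hq => ?_
    obtain ⟨t₀, ht₀, rfl⟩ := mem_image.1 hq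
    have hLt : E.Lt i t₀.2 := by
      rw [hT, mem_sigma] at ht₀
      have h2 := ht₀.2
      unfold LqD at h2
      rw [mem_filter] at h2
      exact h2.2.2.1
    refine (card_le_card_of_injOn (t := (VR i).filter (fun v => v * t₀.2 ∈ ActD E.δ i (E.B1 i ∪ (E.B1 i).image (E.pi i))))
      (fun t => t.1.1) ?_ ?_).trans ?_
    · intro t ht
      rw [mem_coe, mem_filter, hT, mem_sigma] at ht
      obtain ⟨⟨h1, h2⟩, h3⟩ := ht
      obtain ⟨h4, h5, _⟩ := hgeo t.1 h1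
      unfold LqD at h2
      rw [mem_filter, h3] at h2
      rw [mem_coe, mem_filter]
      refine ⟨h4, ?_⟩
      unfold ActD
      rw [mem_biUnion]
      exact ⟨t.1.2, mem_union_left _ h5, h2.2.2.2⟩
    · intro t ht t' ht' htt
      rw [mem_coe, mem_filter, hT, mem_sigma] at ht ht'
      obtain ⟨⟨h1, h2⟩, h3⟩ := ht
      obtain ⟨⟨h1', h2'⟩, h3'⟩ := ht'
      unfold LqD at h2 h2'
      rw [mem_filter] at h2 h2'
      have h4 := h2.2.2.2
      have h4' := h2'.2.2.2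
      simp only at htt h3 h3'
      rw [h3] at h4
      rw [h3', ← htt] at h4'
      have h5 := cell_unique h4 h4'
      obtain ⟨⟨a, b⟩, c⟩ := t
      obtain ⟨⟨a', b'⟩, c'⟩ := t'
      simp only at htt h3 h3' h5
      subst htt h5
      rw [h3, h3']
    · have h6 := E.light i hi t₀.2 hLt
      exact Nat.le_floor h6
  -- the number of `q`
  set R : ℝ := (2 : ℝ) ^ (0.57 * (i : ℝ) + 5) / v₀ with hR
  have hR0 : 0 ≤ R := by positivity
  have hQ : ((T.image (fun t => t.2)).card : ℝ) ≤ 2 * R + 1 := by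
    refine card_int (c := e / m) hR0 fun q hq => ?_
    obtain ⟨t, ht, rfl⟩ := mem_image.1 hq
    rw [hT, mem_sigma] at ht
    obtain ⟨h1, h2⟩ := ht
    obtain ⟨h3, h4, h5, h6, h7, h8⟩ := hgeo t.1 h1
    unfold LqD at h2
    rw [mem_filter] at h2
    have h9 := h2.2.2.2
    unfold cell at h9
    rw [mem_Ioc] at h9
    have h10 : (2 : ℝ) ^ i + t.1.2 * h < t.1.1 * t.2 := by
      rw [hh']
      exact_mod_cast h9.1
    have h11 : (t.1.1 : ℝ) * t.2 ≤ (2 : ℝ) ^ i + (t.1.2 + 1) * h := by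
      rw [hh']
      exact_mod_cast h9.2
    have hw0 : (0 : ℝ) < t.1.1 := by
      unfold VR at h3
      rw [mem_filter] at h3
      exact_mod_cast h3.2.1.pos
    have h12 := abs_le.1 h8
    have h13 : |(t.1.1 : ℝ) * ((t.2 : ℝ) - e / m)| ≤ 2 * D := by
      rw [abs_le]
      have e1 : (t.1.1 : ℝ) * ((t.2 : ℝ) - e / m) = t.1.1 * t.2 - t.1.1 * (e / m) := by ring
      rw [e1]
      constructor
      · linarith [h12.1]
      · linarith [h12.2]
    rw [abs_mul, abs_of_pos hw0] at h13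
    have h14 : v₀ / 4 * |(t.2 : ℝ) - e / m| ≤ 2 * D :=
      (mul_le_mul_of_nonneg_right h6 (abs_nonneg _)).trans h13
    rw [hR, le_div_iff₀ hv₀0]
    have e2 : (2 : ℝ) ^ (0.57 * (i : ℝ) + 5) = 8 * D := by
      rw [hD, show (0.57 * (i : ℝ) + 5) = 3 + (0.57 * (i : ℝ) + 2) by ring, Real.rpow_add (by norm_num)]
      norm_num
    rw [e2]
    linarith
  have hR1 : 2 * R + 1 ≤ (2 : ℝ) ^ (0.57 * (i : ℝ) + 7) / v₀ := by
    have e2 : (2 : ℝ) ^ (0.57 * (i : ℝ) + 7) = 4 * (2 : ℝ) ^ (0.57 * (i : ℝ) + 5) := by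
      rw [show (0.57 * (i : ℝ) + 7) = 2 + (0.57 * (i : ℝ) + 5) by ring, Real.rpow_add (by norm_num)]
      norm_num
    have h1 : 1 ≤ 2 * R := by
      rw [hR, ← mul_div_assoc, le_div_iff₀ hv₀0, one_mul]
      refine hv₀u.trans ?_
      have e3 : 4 * (2 : ℝ) ^ (0.385 * (i : ℝ)) = (2 : ℝ) ^ (0.385 * (i : ℝ) + 2) := by
        rw [Real.rpow_add (by norm_num)]
        norm_num
        ring
      have e4 : 2 * (2 : ℝ) ^ (0.57 * (i : ℝ) + 5) = (2 : ℝ) ^ (0.57 * (i : ℝ) + 6) := by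
        rw [show (0.57 * (i : ℝ) + 6) = 1 + (0.57 * (i : ℝ) + 5) by ring,
            Real.rpow_add (by norm_num) 1 (0.57 * (i : ℝ) + 5), Real.rpow_one]
      rw [e3, e4]
      apply Real.rpow_le_rpow_of_exponent_le (by norm_num)
      linarith
    rw [e2, mul_div_assoc, ← hR]
    linarith
  have hfin : (W.card : ℝ) * (E.cq * h / (4 * v₀ * i)) ≤
      (2 : ℝ) ^ ((5 / 26 - 1 / 2000) * (i : ℝ)) * ((2 : ℝ) ^ (0.57 * (i : ℝ) + 7) / v₀) := by
    refine hTl.trans ?_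
    have h1 : (T.card : ℝ) ≤ (n₁ : ℝ) * ((T.image (fun t => t.2)).card : ℝ) := by exact_mod_cast hTu
    refine h1.trans (mul_le_mul (Nat.floor_le (by positivity)) (hQ.trans hR1) (Nat.cast_nonneg _) (by positivity))
  have h1 := mul_le_mul_of_nonneg_right hfin (by positivity : 0 ≤ 4 * v₀ * i)
  have e1 : (W.card : ℝ) * (E.cq * h / (4 * v₀ * i)) * (4 * v₀ * i) = E.cq * h * W.card := by field_simp
  have e2 : (2 : ℝ) ^ ((5 / 26 - 1 / 2000) * (i : ℝ)) * ((2 : ℝ) ^ (0.57 * (i : ℝ) + 7) / v₀) * (4 * v₀ * i) =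
      4 * i * ((2 : ℝ) ^ (0.57 * (i : ℝ) + 7) * (2 : ℝ) ^ ((5 / 26 - 1 / 2000) * (i : ℝ))) := by field_simp
  rw [e1, e2] at h1
  exact h1

theorem t_LC : S_LC := by
  intro E
  have hcq := E.hcq
  -- growth
  have hev : ∀ᶠ i : ℕ in atTop, 1024 / E.cq * (i : ℝ) ≤ (2 : ℝ) ^ (1 / 50000 * (i : ℝ)) := by
    have h1 : Tendsto (fun x : ℝ => x ^ (1 : ℝ) * Real.exp (-(1 / 50000 * Real.log 2) * x)) atTop (𝓝 0) :=
      tendsto_rpow_mul_exp_neg_mul_atTop_nhds_zero 1 _ (by have := Real.log_pos (show (1 : ℝ) < 2 by norm_num); positivity)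
    have h2 := (h1.comp tendsto_natCast_atTop_atTop).eventually_lt_const
      (show 0 < E.cq / 1024 by positivity)
    filter_upwards [h2] with i hi
    simp only [Function.comp, Real.rpow_one] at hi
    have e : (2 : ℝ) ^ (1 / 50000 * (i : ℝ)) = Real.exp (1 / 50000 * Real.log 2 * i) := by
      rw [Real.rpow_def_of_pos (by norm_num)]
      congr 1
      ring
    rw [e]
    have h5 : Real.exp (-(1 / 50000 * Real.log 2) * i) = (Real.exp (1 / 50000 * Real.log 2 * i))⁻¹ := by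
      rw [← Real.exp_neg]
      congr 1
      ring
    rw [h5, ← div_eq_mul_inv, div_lt_iff₀ (Real.exp_pos _)] at hi
    rw [div_mul_eq_mul_div, div_le_iff₀ hcq]
    linarith
  obtain ⟨J, hJ⟩ := eventually_atTop.1 hev
  refine ⟨max J E.i₁, fun i e m hi hm he => ?_⟩
  have hi1 : J ≤ i := (le_max_left _ _).trans hi
  have hi2 : E.i₁ ≤ i := (le_max_right _ _).trans hi
  have hi3 : (1000 : ℝ) ≤ i := by exact_mod_cast E.hi₁.trans hi2
  have h1 := core_LC E hi2 hm he (Real.rpow_le_rpow_of_exponent_le (by norm_num) (by linarith))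
  have h2 := hJ i hi1
  have hh0 : (0 : ℝ) < hh E.δ i := by exact_mod_cast hh_pos E.δ i
  have hge := hh_ge (δ := E.δ) i
  rw [← le_div_iff₀' (by positivity)] at h1
  refine h1.trans ?_
  rw [div_le_iff₀ (by positivity)]
  -- exponents
  have hδ' := E.hδ'
  have h3 : (4 : ℝ) * i * ((2 : ℝ) ^ (0.57 * (i : ℝ) + 7) * (2 : ℝ) ^ ((5 / 26 - 1 / 2000) * (i : ℝ))) =
      E.cq * (1024 / E.cq * i) * ((2 : ℝ) ^ (0.57 * (i : ℝ) - 1) * (2 : ℝ) ^ ((5 / 26 - 1 / 2000) * (i : ℝ))) := by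
    have e1 : (2 : ℝ) ^ (0.57 * (i : ℝ) + 7) = 256 * (2 : ℝ) ^ (0.57 * (i : ℝ) - 1) := by
      rw [show (0.57 * (i : ℝ) + 7) = 8 + (0.57 * (i : ℝ) - 1) by ring, Real.rpow_add (by norm_num)]
      norm_num
    rw [e1]
    field_simp
    ring
  rw [h3]
  have h4 : (1024 / E.cq * (i : ℝ)) * ((2 : ℝ) ^ (0.57 * (i : ℝ) - 1) * (2 : ℝ) ^ ((5 / 26 - 1 / 2000) * (i : ℝ))) ≤
      (2 : ℝ) ^ ((0.07 + 5 / 26 - 1 / 2100) * (i : ℝ)) * (hh E.δ i : ℝ) := by
    have h5 : (1024 / E.cq * (i : ℝ)) * ((2 : ℝ) ^ (0.57 * (i : ℝ) - 1) * (2 : ℝ) ^ ((5 / 26 - 1 / 2000) * (i : ℝ))) ≤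
        (2 : ℝ) ^ (1 / 50000 * (i : ℝ)) * ((2 : ℝ) ^ (0.57 * (i : ℝ) - 1) * (2 : ℝ) ^ ((5 / 26 - 1 / 2000) * (i : ℝ))) :=
      mul_le_mul_of_nonneg_right h2 (by positivity)
    refine h5.trans (le_trans ?_ (mul_le_mul_of_nonneg_left hge (by positivity)))
    rw [← Real.rpow_add (by norm_num), ← Real.rpow_add (by norm_num), ← Real.rpow_add (by norm_num)]
    apply Real.rpow_le_rpow_of_exponent_le (by norm_num)
    have h6 : E.δ * i ≤ 1 / 10 ^ 24 * i := mul_le_mul_of_nonneg_right hδ' (by linarith)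
    linarith
  calc E.cq * (1024 / E.cq * (i : ℝ)) * ((2 : ℝ) ^ (0.57 * (i : ℝ) - 1) * (2 : ℝ) ^ ((5 / 26 - 1 / 2000) * (i : ℝ)))
      = E.cq * ((1024 / E.cq * (i : ℝ)) * ((2 : ℝ) ^ (0.57 * (i : ℝ) - 1) * (2 : ℝ) ^ ((5 / 26 - 1 / 2000) * (i : ℝ)))) := by ring
    _ ≤ E.cq * ((2 : ℝ) ^ ((0.07 + 5 / 26 - 1 / 2100) * (i : ℝ)) * (hh E.δ i : ℝ)) :=
        mul_le_mul_of_nonneg_left h4 hcq.le
    _ = _ := by ring

end

end Pool.Agent.Q190.KZ
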