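import Pool.Agent.Q18.KZ.S2

set_option autoImplicit false

/-! Project KZ (helper18), job XE: the sum over the random set is small. -/

namespace Pool.Agent.Q190.KZ

open Finset Filter Topology MeasureTheory
open Pool.Agent.Q18.KZ

noncomputable section

/-- union bound with a geometric series -/
lemma ub {Ω : Type*} [MeasurableSpace Ω] (P : Measure Ω) (A : ℕ → Set Ω) {j : ℕ} (hj : 6 ≤ j)
    (h : ∀ i, j ≤ i → P (A i) ≤ ENNReal.ofReal ((1 / 2 : ℝ) ^ i)) :
    P {V | ∃ i, j ≤ i ∧ V ∈ A i} ≤ 1 / 20 := by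
  have h1 : {V | ∃ i, j ≤ i ∧ V ∈ A i} ⊆ ⋃ n : ℕ, A (n + j) := by
    rintro V ⟨i, hi, hV⟩
    rw [Set.mem_iUnion]
    exact ⟨i - j, by rwa [Nat.sub_add_cancel hi]⟩
  refine (measure_mono h1).trans ((measure_iUnion_le _).trans ?_)
  have hs : Summable (fun n : ℕ => (1 / 2 : ℝ) ^ (n + j)) := (summable_nat_add_iff j).2 summable_geometric_two
  refine (ENNReal.tsum_le_tsum fun n => h (n + j) (Nat.le_add_left _ _)).trans ?_
  rw [← ENNReal.ofReal_tsum_of_nonneg (fun n => by positivity) hs]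
  have e : ∑' n : ℕ, (1 / 2 : ℝ) ^ (n + j) = 2 * (1 / 2) ^ j := by
    simp_rw [pow_add]
    rw [tsum_mul_right, tsum_geometric_two]
  rw [e]
  have h2 : (2 : ℝ) * (1 / 2) ^ j ≤ 1 / 20 := by
    have : (1 / 2 : ℝ) ^ j ≤ (1 / 2) ^ 6 := pow_le_pow_of_le_one (by norm_num) (by norm_num) hj
    linarith
  refine (ENNReal.ofReal_le_ofReal h2).trans (le_of_eq ?_)
  rw [ENNReal.ofReal_div_of_pos (by norm_num)]
  norm_num

lemma d1_lt : d1 < dd := by unfold d1 dd; norm_num

lemma rho_nonneg (j p : ℕ) : 0 ≤ rho j p := by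
  unfold rho
  split_ifs
  · positivity
  · exact le_rfl

lemma rho_le_one (j p : ℕ) : rho j p ≤ 1 := by
  unfold rho
  split_ifs with h
  · have h1 : (1 : ℝ) ≤ p := by exact_mod_cast h.1.one_lt.le
    exact Real.rpow_le_one_of_one_le_of_nonpos h1 (by unfold d1; norm_num)
  · exact zero_le_one

lemma int_ind {ρ : ℕ → ℝ} {P : Measure (ℕ → Bool)} (hP : IsRand ρ P) (p : ℕ) (c : ℝ) :
    ∫ V, (if V p = true then c else 0) ∂P = ρ p * c := by
  have h := hP.2 {p} (fun _ b => if b = true then c else 0)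
  simpa using h

lemma meas_ind (p : ℕ) (c : ℝ) : Measurable (fun V : ℕ → Bool => if V p = true then c else 0) := by
  have h1 : MeasurableSet {V : ℕ → Bool | V p = true} := by
    have h2 : MeasurableSet ((fun V : ℕ → Bool => V p) ⁻¹' {true}) :=
      (measurable_pi_apply p) (measurableSet_singleton true)
    convert h2
    ext V
    rw [Set.mem_ofPred_eq, Set.mem_preimage, Set.mem_singleton_iff]
  exact Measurable.ite h1 measurable_const measurable_const

lemma int_able {ρ : ℕ → ℝ} {P : Measure (ℕ → Bool)} (hP : IsRand ρ P) (p : ℕ) (c : ℝ) :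
    Integrable (fun V : ℕ → Bool => if V p = true then c else 0) P := by
  have := hP.1
  refine Integrable.of_bound (meas_ind p c).aestronglyMeasurable |c| (Eventually.of_forall fun V => ?_)
  rw [Real.norm_eq_abs]
  split_ifs
  · exact le_rfl
  · rw [abs_zero]; exact abs_nonneg _

open Classical in
theorem t_XE : S_XE := by
  intro η hη
  have hsum : Summable (fun n : ℕ => (n : ℝ) ^ (-1 - (dd - d1))) := by
    rw [Real.summable_nat_rpow]
    have := d1_lt
    linarith
  obtain ⟨s, hs⟩ := summable_iff_vanishing_norm.1 hsum (η / 20) (by positivity)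
  obtain ⟨n₀, hn₀⟩ : ∃ n₀, n₀ = s.sup id + 1 := ⟨_, rfl⟩
  refine ⟨10 * n₀, fun j hj P hP => ?_⟩
  have := hP.1
  have hjn : n₀ ≤ 2 ^ (j / 10) := by
    have h1 : n₀ ≤ j / 10 := by omega
    exact h1.trans (Nat.lt_two_pow_self).le
  have hset : {V : ℕ → Bool | ¬ EvE η V} = ⋃ N : ℕ, {V : ℕ → Bool | η <
      ∑ v ∈ (range N).filter (fun v => V v = true), (v : ℝ) ^ (-(1 / 2 : ℝ) - dd)} := by
    ext V
    simp only [EvE, Set.mem_ofPred_eq, Set.mem_iUnion, not_forall, not_le]
  rw [hset]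
  have hmono : Monotone (fun N : ℕ => {V : ℕ → Bool | η <
      ∑ v ∈ (range N).filter (fun v => V v = true), (v : ℝ) ^ (-(1 / 2 : ℝ) - dd)}) := by
    intro N M hNM V hV
    simp only [Set.mem_ofPred_eq] at hV ⊢
    refine lt_of_lt_of_le hV (sum_le_sum_of_subset_of_nonneg ?_ fun v _ _ => by positivity)
    exact filter_subset_filter _ (range_mono hNM)
  rw [hmono.measure_iUnion]
  refine iSup_le fun N => ?_
  have e1 : ∀ V : ℕ → Bool, ∑ v ∈ (range N).filter (fun v => V v = true), (v : ℝ) ^ (-(1 / 2 : ℝ) - dd) =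
      ∑ v ∈ range N, if V v = true then (v : ℝ) ^ (-(1 / 2 : ℝ) - dd) else 0 := fun V => sum_filter _ _
  have hint : ∫ V, ∑ v ∈ (range N).filter (fun v => V v = true), (v : ℝ) ^ (-(1 / 2 : ℝ) - dd) ∂P ≤ η / 20 := by
    simp_rw [e1]
    rw [integral_finsetSum _ fun v _ => int_able hP v _]
    simp_rw [int_ind hP]
    have h1 : ∀ v ∈ range N, rho j v * (v : ℝ) ^ (-(1 / 2 : ℝ) - dd) ≤
        if 2 ^ (j / 10) ≤ v then (v : ℝ) ^ (-1 - (dd - d1)) else 0 := by
      intro v _
      unfold rho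
      by_cases h2 : 2 ^ (j / 10) ≤ v
      · rw [if_pos h2]
        split_ifs with h3
        · have hv : (0 : ℝ) < v := by exact_mod_cast h3.1.pos
          rw [← Real.rpow_add hv]
          refine le_of_eq ?_
          congr 1
          ring
        · rw [zero_mul]; positivity
      · rw [if_neg h2, if_neg fun h => h2 h.2, zero_mul]
    refine (sum_le_sum h1).trans ?_
    rw [← sum_filter]
    have h2 := hs ((range N).filter (fun v => 2 ^ (j / 10) ≤ v)) (by
      rw [Finset.disjoint_left]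
      intro v hv hvs
      rw [mem_filter] at hv
      have h3 : v ≤ s.sup id := Finset.le_sup (f := id) hvs
      omega)
    exact ((le_abs_self _).trans (by rw [← Real.norm_eq_abs]; exact h2.le))
  have hii : Integrable (fun V : ℕ → Bool =>
      ∑ v ∈ (range N).filter (fun v => V v = true), (v : ℝ) ^ (-(1 / 2 : ℝ) - dd)) P := by
    simp_rw [e1]
    exact integrable_finsetSum _ fun v _ => int_able hP v _
  have hM := mul_meas_ge_le_integral_of_nonneg (μ := P) (f := fun V : ℕ → Bool =>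
      ∑ v ∈ (range N).filter (fun v => V v = true), (v : ℝ) ^ (-(1 / 2 : ℝ) - dd))
    (Eventually.of_forall fun V => sum_nonneg fun v _ => by positivity) hii η
  have h5 : P.real {V : ℕ → Bool | η < ∑ v ∈ (range N).filter (fun v => V v = true), (v : ℝ) ^ (-(1 / 2 : ℝ) - dd)} ≤ 1 / 20 := by
    have h6 : P.real {V : ℕ → Bool | η < ∑ v ∈ (range N).filter (fun v => V v = true), (v : ℝ) ^ (-(1 / 2 : ℝ) - dd)} ≤
        P.real {V : ℕ → Bool | η ≤ ∑ v ∈ (range N).filter (fun v => V v = true), (v : ℝ) ^ (-(1 / 2 : ℝ) - dd)} :=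
      measureReal_mono fun V hV => by
        rw [Set.mem_ofPred_eq] at hV ⊢
        exact hV.le
    have h7 := hM.trans hint
    have h8 : η * P.real {V : ℕ → Bool | η ≤ ∑ v ∈ (range N).filter (fun v => V v = true), (v : ℝ) ^ (-(1 / 2 : ℝ) - dd)} ≤
        η * (1 / 20) := by linarith
    exact h6.trans (le_of_mul_le_mul_left h8 hη)
  have h9 : P {V : ℕ → Bool | η < ∑ v ∈ (range N).filter (fun v => V v = true), (v : ℝ) ^ (-(1 / 2 : ℝ) - dd)} ≤
      ENNReal.ofReal (1 / 20) := by
    rw [← ENNReal.ofReal_toReal (measure_ne_top P _)]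
    exact ENNReal.ofReal_le_ofReal h5
  refine h9.trans (le_of_eq ?_)
  rw [ENNReal.ofReal_div_of_pos (by norm_num)]
  norm_num

end

end Pool.Agent.Q190.KZ
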