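import Pool.Agent.Q190.KZ.XE

set_option autoImplicit false

/-! Project KZ (helper18), job XO1: normalisation of the dipoles. -/

namespace Pool.Agent.Q190.KZ

open Finset Filter Topology MeasureTheory
open Pool.Agent.Q18.KZ

noncomputable section

open Classical in
theorem t_XO1 (hC : S_CHL) : S_XO1 := by
  intro E
  have hcu := E.hcu
  -- the growth
  have hev : ∀ᶠ i : ℕ in atTop, (i : ℝ) * Real.log 4 ≤ E.cu / 8 * (2 : ℝ) ^ (5 / 26 * (i : ℝ)) := by
    have h1 : Tendsto (fun x : ℝ => x ^ (1 : ℝ) * Real.exp (-(5 / 26 * Real.log 2) * x)) atTop (𝓝 0) :=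
      tendsto_rpow_mul_exp_neg_mul_atTop_nhds_zero 1 _ (by have := Real.log_pos (show (1 : ℝ) < 2 by norm_num); positivity)
    have h2 := (h1.comp tendsto_natCast_atTop_atTop).eventually_lt_const
      (show 0 < E.cu / 8 / Real.log 4 by have := Real.log_pos (show (1 : ℝ) < 4 by norm_num); positivity)
    filter_upwards [h2] with i hi
    simp only [Function.comp, Real.rpow_one] at hi
    have h4 : 0 < Real.log 4 := Real.log_pos (by norm_num)
    have e : (2 : ℝ) ^ (5 / 26 * (i : ℝ)) = Real.exp (5 / 26 * Real.log 2 * i) := by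
      rw [Real.rpow_def_of_pos (by norm_num)]
      congr 1
      ring
    rw [e]
    have h5 : Real.exp (-(5 / 26 * Real.log 2) * i) = (Real.exp (5 / 26 * Real.log 2 * i))⁻¹ := by
      rw [← Real.exp_neg]
      congr 1
      ring
    rw [h5, ← div_eq_mul_inv, div_lt_div_iff₀ (Real.exp_pos _) h4] at hi
    linarith
  obtain ⟨J, hJ⟩ := eventually_atTop.1 hev
  refine ⟨max (max J E.i₁) 6, fun j hj P hP => ?_⟩
  have := hP.1
  have hj1 : J ≤ j := (le_max_left _ _).trans ((le_max_left _ _).trans hj)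
  have hj2 : E.i₁ ≤ j := (le_max_right _ _).trans ((le_max_left _ _).trans hj)
  have hj3 : 6 ≤ j := (le_max_right _ _).trans hj
  have hset : {V : ℕ → Bool | ¬ EvO1 E j V} ⊆
      {V | ∃ i, j ≤ i ∧ V ∈ ⋃ k ∈ E.B1 i, {V : ℕ → Bool | E.Om1 V i k < E.cu / 2}} := by
    intro V hV
    simp only [Set.mem_ofPred_eq, EvO1, not_forall, not_le] at hV
    obtain ⟨i, hi, k, hk, h⟩ := hV
    refine ⟨i, hi, ?_⟩
    simp only [Set.mem_iUnion]
    exact ⟨k, hk, h⟩
  refine (measure_mono hset).trans (ub P _ hj3 fun i hi => ?_)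
  have hii : E.i₁ ≤ i := hj2.trans hi
  -- one cell
  have h1 : ∀ k ∈ E.B1 i, P {V : ℕ → Bool | E.Om1 V i k < E.cu / 2} ≤ ENNReal.ofReal ((1 / 4 : ℝ) ^ i) := by
    intro k hk
    have hsub := E.us_sub i hii k hk
    have hsum := E.us_sum i hii k hk
    have hv : ∀ v ∈ E.Us i k, v.Prime ∧ (2 : ℝ) ^ (5 / 13 * (i : ℝ)) < v := by
      intro v hv
      have h := hsub hv
      unfold VR at h
      rw [mem_filter] at h
      exact ⟨h.2.1, h.2.2.1⟩
    have hrho : ∀ v ∈ E.Us i k, rho j v * (v : ℝ) ^ (-(1 / 2 : ℝ) - d1) = 1 / (v : ℝ) := by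
      intro v hvv
      obtain ⟨hvp, hv2⟩ := hv v hvv
      have hv0 : (0 : ℝ) < v := by exact_mod_cast hvp.pos
      have h2 : 2 ^ (j / 10) ≤ v := by
        have h3 : (2 : ℝ) ^ (((j / 10 : ℕ) : ℝ)) ≤ (2 : ℝ) ^ (5 / 13 * (i : ℝ)) := by
          apply Real.rpow_le_rpow_of_exponent_le (by norm_num)
          have h4 : ((j / 10 : ℕ) : ℝ) ≤ (j : ℝ) / 10 := Nat.cast_div_le
          have h5 : (j : ℝ) ≤ i := by exact_mod_cast hi
          have h6 : (0 : ℝ) ≤ i := Nat.cast_nonneg i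
          linarith
        rw [Real.rpow_natCast] at h3
        have h4 := h3.trans hv2.le
        exact_mod_cast h4
      unfold rho
      rw [if_pos ⟨hvp, h2⟩, ← Real.rpow_add hv0]
      have e : -(1 / 2 : ℝ) + d1 + (-(1 / 2 : ℝ) - d1) = -1 := by ring
      rw [e, Real.rpow_neg_one, one_div]
    have hm : ∑ v ∈ E.Us i k, rho j v * (v : ℝ) ^ (-(1 / 2 : ℝ) - d1) = ∑ v ∈ E.Us i k, 1 / (v : ℝ) :=
      sum_congr rfl hrho
    set M : ℝ := (2 : ℝ) ^ (-(5 / 26 * (i : ℝ))) with hM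
    have hM0 : 0 < M := by positivity
    have h2 := hC (rho j) P (fun p => ⟨rho_nonneg j p, rho_le_one j p⟩) hP (E.Us i k) (fun v => (v : ℝ) ^ (-(1 / 2 : ℝ) - d1)) M hM0
      (fun v hvv => by
        obtain ⟨hvp, hv2⟩ := hv v hvv
        have hv1 : (1 : ℝ) ≤ v := by exact_mod_cast hvp.one_lt.le
        refine ⟨by positivity, ?_⟩
        calc (v : ℝ) ^ (-(1 / 2 : ℝ) - d1) ≤ (v : ℝ) ^ (-(1 / 2 : ℝ)) :=
              Real.rpow_le_rpow_of_exponent_le hv1 (by unfold d1; norm_num)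
          _ ≤ ((2 : ℝ) ^ (5 / 13 * (i : ℝ))) ^ (-(1 / 2 : ℝ)) :=
              Real.rpow_le_rpow_of_nonpos (by positivity) hv2.le (by norm_num)
          _ = M := by
              rw [← Real.rpow_mul (by norm_num), hM]
              congr 1
              ring)
    rw [hm] at h2
    have h3 : {V : ℕ → Bool | E.Om1 V i k < E.cu / 2} ⊆
        {ω : ℕ → Bool | ∑ p ∈ (E.Us i k).filter (fun p => ω p = true), (p : ℝ) ^ (-(1 / 2 : ℝ) - d1) <
          (∑ v ∈ E.Us i k, 1 / (v : ℝ)) / 2} := by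
      intro V hV
      rw [Set.mem_ofPred_eq] at hV ⊢
      unfold KEnv.Om1 at hV
      refine lt_of_lt_of_le hV ?_
      linarith
    refine (measure_mono h3).trans (h2.trans (ENNReal.ofReal_le_ofReal ?_))
    have h5 := hJ i (hj1.trans hi)
    have h6 : E.cu / 8 * (2 : ℝ) ^ (5 / 26 * (i : ℝ)) ≤ (∑ v ∈ E.Us i k, 1 / (v : ℝ)) / (8 * M) := by
      have h7 : E.cu / 8 * (2 : ℝ) ^ (5 / 26 * (i : ℝ)) = E.cu / (8 * M) := by
        rw [hM, Real.rpow_neg (by norm_num)]
        field_simp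
      rw [h7]
      exact div_le_div_of_nonneg_right hsum (by positivity)
    have e4 : (1 / 4 : ℝ) ^ i = Real.exp (-((i : ℝ) * Real.log 4)) := by
      rw [Real.exp_neg, Real.exp_nat_mul, Real.exp_log (by norm_num), one_div, inv_pow]
    rw [e4]
    exact Real.exp_le_exp.2 (by linarith)
  have hcard := E.card1 i hii
  have hc2 : ((E.B1 i).card : ℝ) ≤ 2 ^ i := by
    refine hcard.trans ?_
    rw [← Real.rpow_natCast]
    apply Real.rpow_le_rpow_of_exponent_le (by norm_num)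
    have h6 : (0 : ℝ) ≤ i := Nat.cast_nonneg i
    linarith
  refine (measure_biUnion_finset_le _ _).trans ((sum_le_sum h1).trans ?_)
  rw [sum_const, nsmul_eq_mul, ← ENNReal.ofReal_natCast, ← ENNReal.ofReal_mul (Nat.cast_nonneg _)]
  apply ENNReal.ofReal_le_ofReal
  calc ((E.B1 i).card : ℝ) * (1 / 4) ^ i ≤ 2 ^ i * (1 / 4) ^ i := mul_le_mul_of_nonneg_right hc2 (by positivity)
    _ = (1 / 2) ^ i := by rw [← mul_pow]; norm_num

end

end Pool.Agent.Q190.KZ
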