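import Pool.Agent.Q190.KZ.LC
import Pool.Agent.Q18.KZ.S3

set_option autoImplicit false

/-! Project KZ (helper18), job DT: values of the hosts. -/

namespace Pool.Agent.Q190.KZ

open Finset Filter Topology MeasureTheory
open Pool.Agent.Q18.KZ
open Pool.Agent.W76.MO (hh nc cell lp Rough)

noncomputable section

open scoped Classical

lemma al_pos (E : KEnv) : 0 < E.al := by unfold KEnv.al; positivity

lemma ww_nonneg (δ : ℝ) (i : ℕ) : 0 ≤ ww δ i := by unfold ww; positivity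

/-- the summand of the dipoles -/
def X1 (E : KEnv) (V : ℕ → Bool) (i k v q : ℕ) : ℝ := (v : ℝ) ^ (dd - d1) / E.Om1 V i k *
    ((if q ∈ E.Lq i k v then 1 / ((E.Lq i k v).card : ℝ) else 0) +
      (if q ∈ E.Lq i (E.pi i k) v then 1 / ((E.Lq i (E.pi i k) v).card : ℝ) else 0))

lemma Om1_nonneg (E : KEnv) (V : ℕ → Bool) (i k : ℕ) : 0 ≤ E.Om1 V i k := by
  unfold KEnv.Om1
  exact sum_nonneg fun v _ => by positivity

lemma Om2_nonneg (E : KEnv) (V : ℕ → Bool) (i k : ℕ) : 0 ≤ E.Om2 V i k := by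
  unfold KEnv.Om2
  exact sum_nonneg fun v _ => by positivity

lemma X1_nonneg (E : KEnv) (V : ℕ → Bool) (i k v q : ℕ) : 0 ≤ X1 E V i k v q := by
  unfold X1
  refine mul_nonneg (div_nonneg (by positivity) (Om1_nonneg E V i k)) (add_nonneg ?_ ?_)
  · split_ifs <;> positivity
  · split_ifs <;> positivity

lemma lq_mem {E : KEnv} {i k v q : ℕ} (h : q ∈ E.Lq i k v) :
    q.Prime ∧ E.Lt i q ∧ v * q ∈ cell E.δ i k ∧ q ∈ range (2 ^ (i + 1) + 1) := by
  unfold KEnv.Lq LqD at h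
  rw [mem_filter] at h
  exact ⟨h.2.1, h.2.2.1, h.2.2.2, h.1⟩

lemma X1_fam {E : KEnv} {V : ℕ → Bool} {i k v q : ℕ} (hi : E.i₁ ≤ i) (hk : k ∈ E.B1 i) (hv : v ∈ E.Us i k)
    (h : X1 E V i k v q ≠ 0) : (v, q) ∈ E.Fam1 i := by
  have hVR := E.us_sub i hi k hk hv
  unfold KEnv.Fam1
  rw [mem_filter, mem_product]
  by_cases h1 : q ∈ E.Lq i k v
  · obtain ⟨a1, a2, a3, a4⟩ := lq_mem h1
    refine ⟨⟨hVR, a4⟩, a1, a2, ?_⟩
    unfold KEnv.Act1 ActD
    rw [mem_biUnion]
    exact ⟨k, mem_union_left _ hk, a3⟩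
  · by_cases h2 : q ∈ E.Lq i (E.pi i k) v
    · obtain ⟨a1, a2, a3, a4⟩ := lq_mem h2
      refine ⟨⟨hVR, a4⟩, a1, a2, ?_⟩
      unfold KEnv.Act1 ActD
      rw [mem_biUnion]
      exact ⟨E.pi i k, mem_union_right _ (mem_image_of_mem _ hk), a3⟩
    · exfalso
      apply h
      unfold X1
      rw [if_neg h1, if_neg h2, add_zero, mul_zero]

lemma g1_eq (E : KEnv) (V : ℕ → Bool) (i : ℕ) (u : ℕ × ℕ) : E.g1 V i u =
    ∑ k ∈ E.B1 i, if u.1 ∈ E.Us i k ∧ V u.1 = true then E.al * ww E.δ i * X1 E V i k u.1 u.2 else 0 := rfl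

lemma H1_eq (E : KEnv) (V : ℕ → Bool) (i q : ℕ) : E.H1 V i q =
    ∑ k ∈ E.B1 i, E.al * ww E.δ i * ∑ v ∈ (E.Us i k).filter (fun v => V v = true), X1 E V i k v q := rfl

lemma g1_nonneg (E : KEnv) (V : ℕ → Bool) (i : ℕ) (u : ℕ × ℕ) : 0 ≤ E.g1 V i u := by
  rw [g1_eq]
  refine sum_nonneg fun k _ => ?_
  split_ifs
  · exact mul_nonneg (mul_nonneg (al_pos E).le (ww_nonneg _ _)) (X1_nonneg _ _ _ _ _ _)
  · exact le_rfl

lemma g2_nonneg (E : KEnv) (V : ℕ → Bool) (i : ℕ) (u : ℕ × ℕ) : 0 ≤ E.g2 V i u := by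
  unfold KEnv.g2
  refine sum_nonneg fun k _ => ?_
  split_ifs
  · exact mul_nonneg (mul_nonneg (al_pos E).le (ww_nonneg _ _)) (div_nonneg (by positivity) (Om2_nonneg _ _ _ _))
  · exact le_rfl

lemma part1 (E : KEnv) (V : ℕ → Bool) {i : ℕ} (hi : E.i₁ ≤ i) (q : ℕ) : 0 ≤ E.H1 V i q ∧
    E.H1 V i q ≤ ∑ u ∈ (E.Fam1 i).filter (fun u => u.2 = q), E.g1 V i u := by
  have hal : 0 ≤ E.al * ww E.δ i := mul_nonneg (al_pos E).le (ww_nonneg _ _)
  rw [H1_eq]
  constructor
  · exact sum_nonneg fun k _ => mul_nonneg hal (sum_nonneg fun v _ => X1_nonneg _ _ _ _ _ _)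
  · simp_rw [g1_eq]
    rw [sum_comm]
    refine sum_le_sum fun k hk => ?_
    rw [mul_sum]
    set F := (E.Us i k).filter (fun v => V v = true) with hF
    have h1 : ∑ v ∈ F, E.al * ww E.δ i * X1 E V i k v q =
        ∑ v ∈ F.filter (fun v => (v, q) ∈ E.Fam1 i), E.al * ww E.δ i * X1 E V i k v q := by
      symm
      refine sum_filter_of_ne fun v hv hne => ?_
      refine X1_fam (V := V) hi hk (mem_filter.1 hv).1 fun h0 => hne ?_
      rw [h0, mul_zero]
    rw [h1]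
    have h2 : ∑ v ∈ F.filter (fun v => (v, q) ∈ E.Fam1 i), E.al * ww E.δ i * X1 E V i k v q =
        ∑ u ∈ (F.filter (fun v => (v, q) ∈ E.Fam1 i)).image (fun v => (v, q)),
          if u.1 ∈ E.Us i k ∧ V u.1 = true then E.al * ww E.δ i * X1 E V i k u.1 u.2 else 0 := by
      rw [sum_image fun x _ y _ hxy => (Prod.mk.inj hxy).1]
      refine sum_congr rfl fun v hv => ?_
      rw [mem_filter, hF, mem_filter] at hv
      rw [if_pos hv.1]
    rw [h2]
    refine sum_le_sum_of_subset_of_nonneg ?_ fun u _ _ => ?_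
    · intro u hu
      obtain ⟨v, hv, rfl⟩ := mem_image.1 hu
      rw [mem_filter] at hv ⊢
      exact ⟨hv.2, rfl⟩
    · split_ifs
      · exact mul_nonneg hal (X1_nonneg _ _ _ _ _ _)
      · exact le_rfl

/-- facts on the numbers of `H2D` -/
lemma h2d_mem {E : KEnv} {i k n : ℕ} (hk : k < nc E.δ i) (h : n ∈ H2D E.δ i k) :
    n ∈ cell E.δ i k ∧ n ≠ 0 ∧ n ≤ 2 ^ (i + 1) ∧ (lp n).Prime ∧ lp n ∣ n ∧ n / lp n * lp n = n := by
  unfold H2D at h
  rw [mem_filter] at h
  have hc := h.1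
  unfold cell at hc
  rw [mem_Ioc] at hc
  have h2 : 1 ≤ 2 ^ i := Nat.one_le_two_pow
  have hn2 : 2 ≤ n := by
    have := hc.1
    omega
  have htop := cell_top (δ := E.δ) hk
  have hne : n.primeFactors.Nonempty := Nat.nonempty_primeFactors.2 (by omega)
  obtain ⟨p, hp, hsup⟩ := Finset.exists_mem_eq_sup n.primeFactors hne id
  have hlp : lp n = p := by
    unfold Pool.Agent.W76.MO.lp
    rw [hsup]
    rfl
  have hpp := Nat.mem_primeFactors.1 hp
  refine ⟨h.1, by omega, hc.2.trans htop, by rw [hlp]; exact hpp.1, by rw [hlp]; exact hpp.2.1, ?_⟩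
  rw [hlp]
  exact Nat.div_mul_cancel hpp.2.1

lemma part2 (E : KEnv) (V : ℕ → Bool) {i : ℕ} (q : ℕ) : 0 ≤ E.H2 V i q ∧
    E.H2 V i q ≤ ∑ u ∈ (E.Fam2 i).filter (fun u => u.2 = q), E.g2 V i u := by
  have hal : 0 ≤ E.al * ww E.δ i := mul_nonneg (al_pos E).le (ww_nonneg _ _)
  unfold KEnv.H2 KEnv.G2 KEnv.g2
  constructor
  · exact sum_nonneg fun k _ => mul_nonneg hal (sum_nonneg fun v _ => div_nonneg (by positivity) (Om2_nonneg _ _ _ _))
  · rw [sum_comm]
    refine sum_le_sum fun k hk => ?_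
    have hkn : k < nc E.δ i := E.sub i k (mem_union_right _ hk)
    rw [mul_sum]
    have h2 : ∑ n ∈ (H2D E.δ i k).filter (fun n => lp n = q ∧ Vn V (n / q)),
        E.al * ww E.δ i * (((n / q : ℕ) : ℝ) ^ (1 + dd - d1) / E.Om2 V i k) =
        ∑ u ∈ ((H2D E.δ i k).filter (fun n => lp n = q ∧ Vn V (n / q))).image (fun n => (n / q, q)),
          if u.1 * u.2 ∈ H2D E.δ i k ∧ lp (u.1 * u.2) = u.2 ∧ Vn V u.1 then
            E.al * ww E.δ i * ((u.1 : ℝ) ^ (1 + dd - d1) / E.Om2 V i k) else 0 := by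
      rw [sum_image]
      · refine sum_congr rfl fun n hn => ?_
        rw [mem_filter] at hn
        obtain ⟨h3, h4, h5⟩ := hn
        obtain ⟨_, _, _, _, _, h6⟩ := h2d_mem hkn h3
        rw [h4] at h6
        dsimp only
        rw [h6, if_pos ⟨h3, h4, h5⟩]
      · intro n hn n' hn' hnn
        rw [mem_coe, mem_filter] at hn hn'
        obtain ⟨_, _, _, _, _, h6⟩ := h2d_mem hkn hn.1
        obtain ⟨_, _, _, _, _, h6'⟩ := h2d_mem hkn hn'.1
        rw [hn.2.1] at h6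
        rw [hn'.2.1] at h6'
        have h7 := (Prod.mk.inj hnn).1
        rw [← h6, ← h6', h7]
    rw [h2]
    refine sum_le_sum_of_subset_of_nonneg ?_ fun u _ _ => ?_
    · intro u hu
      obtain ⟨n, hn, rfl⟩ := mem_image.1 hu
      rw [mem_filter] at hn
      obtain ⟨h3, h4, h5⟩ := hn
      obtain ⟨_, h0, htop, hpr, hdv, h6⟩ := h2d_mem hkn h3
      rw [h4] at h6 hpr hdv
      rw [mem_filter]
      refine ⟨?_, rfl⟩
      unfold KEnv.Fam2
      rw [mem_filter, mem_product, mem_range, mem_range]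
      dsimp only
      rw [h6]
      refine ⟨⟨?_, ?_⟩, hpr, h4, k, hk, h3⟩
      · have := Nat.div_le_self n q
        omega
      · have := Nat.le_of_dvd (Nat.pos_of_ne_zero h0) hdv
        omega
    · split_ifs
      · exact mul_nonneg hal (div_nonneg (by positivity) (Om2_nonneg _ _ _ _))
      · exact le_rfl

/-- number of the `k` with `x ∈ cell (pi k)` -/
lemma fib_card (E : KEnv) {i : ℕ} (hi : E.i₁ ≤ i) (x : ℕ) :
    ((E.B1 i).filter (fun k => x ∈ cell E.δ i (E.pi i k))).card ≤ E.B0 := by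
  rcases ((E.B1 i).filter (fun k => x ∈ cell E.δ i (E.pi i k))).eq_empty_or_nonempty with h | ⟨k₀, hk₀⟩
  · rw [h, card_empty]; exact Nat.zero_le _
  · refine (card_le_card ?_).trans (E.pi_fib i hi (E.pi i k₀))
    intro k hk
    rw [mem_filter] at hk hk₀ ⊢
    exact ⟨hk.1, cell_unique hk.2 hk₀.2⟩

lemma one_card (E : KEnv) {i : ℕ} (B : Finset ℕ) (x : ℕ) : (B.filter (fun k => x ∈ cell E.δ i k)).card ≤ 1 := by
  rw [card_le_one]
  intro k hk k' hk'
  rw [mem_filter] at hk hk'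
  exact cell_unique hk.2 hk'.2

lemma vr_mem {i v : ℕ} (h : v ∈ VR i) : v.Prime ∧ (0 : ℝ) < v := by
  unfold VR at h
  rw [mem_filter] at h
  exact ⟨h.2.1, by exact_mod_cast h.2.1.pos⟩

lemma part3a (E : KEnv) (V : ℕ → Bool) {i : ℕ} (hi : E.i₁ ≤ i) (hO : ∀ k ∈ E.B1 i, E.cu / 2 ≤ E.Om1 V i k) (u : ℕ × ℕ) :
    E.g1 V i u ≤ if Vn V u.1 then (E.al * (2 * (1 + E.B0) / (E.cu * E.cq))) * E.TT i u.1 else 0 := by
  have hal : 0 ≤ E.al * ww E.δ i := mul_nonneg (al_pos E).le (ww_nonneg _ _)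
  have hcu := E.hcu
  have hcq := E.hcq
  have hi0 : (0 : ℝ) < i := by
    have := E.hi₁.trans hi
    exact_mod_cast (by omega : 0 < i)
  have hh0 : (0 : ℝ) < hh E.δ i := by exact_mod_cast hh_pos E.δ i
  rw [g1_eq]
  split_ifs with hV
  · obtain ⟨v, q⟩ := u
    dsimp only at hV ⊢
    set Q : ℝ := (v : ℝ) ^ (1 + dd - d1) * i * (2 / (E.cu * E.cq * hh E.δ i)) with hQ
    have hQ0 : 0 ≤ Q := by positivity
    have h1 : ∀ k ∈ E.B1 i, (if v ∈ E.Us i k ∧ V v = true then E.al * ww E.δ i * X1 E V i k v q else 0) ≤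
        E.al * ww E.δ i * (Q * ((if v * q ∈ cell E.δ i k then 1 else 0) + (if v * q ∈ cell E.δ i (E.pi i k) then 1 else 0))) := by
      intro k hk
      by_cases h2 : v ∈ E.Us i k ∧ V v = true
      · rw [if_pos h2]
        refine mul_le_mul_of_nonneg_left ?_ hal
        have hv0 := (vr_mem (E.us_sub i hi k hk h2.1)).2
        obtain ⟨hq1, hq2⟩ := E.us_q i hi k hk v h2.1
        have hOk := hO k hk
        have hOm : 0 < E.Om1 V i k := by linarith
        have hvi : 0 < E.cq * hh E.δ i / (v * i) := by positivity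
        have hX : ∀ c : ℕ, E.cq * hh E.δ i / (v * i) ≤ ((LqD E.δ E.Lt i c v).card : ℝ) →
            (v : ℝ) ^ (dd - d1) / E.Om1 V i k * (if q ∈ E.Lq i c v then 1 / ((E.Lq i c v).card : ℝ) else 0) ≤
              Q * (if v * q ∈ cell E.δ i c then 1 else 0) := by
          intro c hc
          by_cases h3 : q ∈ E.Lq i c v
          · rw [if_pos h3, if_pos (lq_mem h3).2.2.1, mul_one]
            have h4 : 1 / ((E.Lq i c v).card : ℝ) ≤ v * i / (E.cq * hh E.δ i) := by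
              have h5 : 1 / ((E.Lq i c v).card : ℝ) ≤ 1 / (E.cq * hh E.δ i / (v * i)) :=
                one_div_le_one_div_of_le hvi hc
              rwa [one_div_div] at h5
            have h6 : (v : ℝ) ^ (dd - d1) / E.Om1 V i k ≤ (v : ℝ) ^ (dd - d1) / (E.cu / 2) :=
              div_le_div_of_nonneg_left (by positivity) (by positivity) hOk
            have h7 := mul_le_mul h6 h4 (by positivity) (by positivity)
            refine h7.trans (le_of_eq ?_)
            have e : (v : ℝ) ^ (1 + dd - d1) = v * (v : ℝ) ^ (dd - d1) := by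
              rw [add_sub_assoc, Real.rpow_add hv0, Real.rpow_one]
            rw [hQ, e]
            field_simp
          · rw [if_neg h3, mul_zero]
            refine mul_nonneg hQ0 ?_
            split_ifs <;> norm_num
        unfold X1
        rw [mul_add, mul_add]
        exact add_le_add (hX k hq1) (hX (E.pi i k) hq2)
      · rw [if_neg h2]
        refine mul_nonneg hal (mul_nonneg hQ0 (add_nonneg ?_ ?_))
        · split_ifs <;> norm_num
        · split_ifs <;> norm_num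
    refine (sum_le_sum h1).trans ?_
    rw [← mul_sum, ← mul_sum, sum_add_distrib]
    have h3 : (∑ k ∈ E.B1 i, if v * q ∈ cell E.δ i k then (1 : ℝ) else 0) ≤ 1 := by
      rw [sum_boole]
      exact_mod_cast one_card E (E.B1 i) (v * q)
    have h4 : (∑ k ∈ E.B1 i, if v * q ∈ cell E.δ i (E.pi i k) then (1 : ℝ) else 0) ≤ E.B0 := by
      rw [sum_boole]
      exact_mod_cast fib_card E hi (v * q)
    have h5 : E.al * ww E.δ i * (Q * ((∑ k ∈ E.B1 i, if v * q ∈ cell E.δ i k then (1 : ℝ) else 0) +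
        ∑ k ∈ E.B1 i, if v * q ∈ cell E.δ i (E.pi i k) then (1 : ℝ) else 0)) ≤ E.al * ww E.δ i * (Q * (1 + E.B0)) :=
      mul_le_mul_of_nonneg_left (mul_le_mul_of_nonneg_left (add_le_add h3 h4) hQ0) hal
    refine h5.trans (le_of_eq ?_)
    unfold KEnv.TT
    rw [hQ]
    field_simp
  · refine le_of_eq (sum_eq_zero fun k hk => ?_)
    rw [if_neg]
    rintro ⟨h2, h3⟩
    apply hV
    have hp := (vr_mem (E.us_sub i hi k hk h2)).1
    intro p hp2
    rw [hp.primeFactors, mem_singleton] at hp2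
    rw [hp2]
    exact h3

lemma part3b (E : KEnv) (V : ℕ → Bool) {i : ℕ} (hi : E.i₁ ≤ i)
    (hO : ∀ k ∈ E.B2 i, E.cH / 2 * hh E.δ i / i ≤ E.Om2 V i k) (u : ℕ × ℕ) :
    E.g2 V i u ≤ if Vn V u.1 then (E.al * (2 / E.cH)) * E.TT i u.1 else 0 := by
  have hal : 0 ≤ E.al * ww E.δ i := mul_nonneg (al_pos E).le (ww_nonneg _ _)
  have hcH := E.hcH
  have hi0 : (0 : ℝ) < i := by
    have := E.hi₁.trans hi
    exact_mod_cast (by omega : 0 < i)
  have hh0 : (0 : ℝ) < hh E.δ i := by exact_mod_cast hh_pos E.δ i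
  unfold KEnv.g2
  split_ifs with hV
  · set Q : ℝ := (u.1 : ℝ) ^ (1 + dd - d1) * (i / (E.cH / 2 * hh E.δ i)) with hQ
    have hQ0 : 0 ≤ Q := by positivity
    have h1 : ∀ k ∈ E.B2 i, (if u.1 * u.2 ∈ H2D E.δ i k ∧ lp (u.1 * u.2) = u.2 ∧ Vn V u.1 then
        E.al * ww E.δ i * ((u.1 : ℝ) ^ (1 + dd - d1) / E.Om2 V i k) else 0) ≤
        E.al * ww E.δ i * Q * (if u.1 * u.2 ∈ cell E.δ i k then 1 else 0) := by
      intro k hk
      have hOk := hO k hk
      have h0 : 0 < E.cH / 2 * hh E.δ i / i := by positivity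
      by_cases h2 : u.1 * u.2 ∈ H2D E.δ i k ∧ lp (u.1 * u.2) = u.2 ∧ Vn V u.1
      · rw [if_pos h2]
        have h3 := h2.1
        unfold H2D at h3
        rw [if_pos (mem_filter.1 h3).1, mul_one]
        refine mul_le_mul_of_nonneg_left ?_ hal
        rw [hQ]
        refine (div_le_div_of_nonneg_left (by positivity) h0 hOk).trans (le_of_eq ?_)
        rw [div_div_eq_mul_div, mul_div_assoc]
      · rw [if_neg h2]
        refine mul_nonneg (mul_nonneg hal hQ0) ?_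
        split_ifs <;> norm_num
    refine (sum_le_sum h1).trans ?_
    rw [← mul_sum]
    have h3 : (∑ k ∈ E.B2 i, if u.1 * u.2 ∈ cell E.δ i k then (1 : ℝ) else 0) ≤ 1 := by
      rw [sum_boole]
      exact_mod_cast one_card E (E.B2 i) (u.1 * u.2)
    refine (mul_le_mul_of_nonneg_left h3 (mul_nonneg hal hQ0)).trans (le_of_eq ?_)
    unfold KEnv.TT
    rw [hQ]
    field_simp
  · refine le_of_eq (sum_eq_zero fun k hk => ?_)
    rw [if_neg fun h => hV h.2.2]

/-- one dipole against its normalisation -/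
lemma P1 (E : KEnv) (V : ℕ → Bool) {i k c k' : ℕ} (hi : E.i₁ ≤ i) (hk : k ∈ E.B1 i) (hO : 0 < E.Om1 V i k) :
    ∑ u ∈ (E.Fam1 i).filter (fun u => u.1 * u.2 ∈ cell E.δ i k'),
      (if u.1 ∈ E.Us i k ∧ V u.1 = true then E.al * ww E.δ i * ((u.1 : ℝ) ^ (dd - d1) / E.Om1 V i k *
        (if u.2 ∈ E.Lq i c u.1 then 1 / ((E.Lq i c u.1).card : ℝ) else 0)) else 0) * (u.1 : ℝ) ^ (-(1 / 2 : ℝ) - dd) ≤
    if c = k' then E.al * ww E.δ i else 0 := by
  have hal : 0 ≤ E.al * ww E.δ i := mul_nonneg (al_pos E).le (ww_nonneg _ _)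
  split_ifs with hc
  · set f : ℕ × ℕ → ℝ := fun u => (if u.1 ∈ E.Us i k ∧ V u.1 = true then E.al * ww E.δ i * ((u.1 : ℝ) ^ (dd - d1) / E.Om1 V i k *
        (if u.2 ∈ E.Lq i c u.1 then 1 / ((E.Lq i c u.1).card : ℝ) else 0)) else 0) * (u.1 : ℝ) ^ (-(1 / 2 : ℝ) - dd) with hf
    have hf0 : ∀ u, 0 ≤ f u := by
      intro u
      rw [hf]
      dsimp only
      refine mul_nonneg ?_ (by positivity)
      split_ifs
      · exact mul_nonneg hal (mul_nonneg (div_nonneg (by positivity) hO.le) (by positivity))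
      · rw [mul_zero, mul_zero]
      · exact le_rfl
    set F := (E.Us i k).filter (fun v => V v = true) with hF
    have h1 : ∑ u ∈ (E.Fam1 i).filter (fun u => u.1 * u.2 ∈ cell E.δ i k'), f u ≤ ∑ u ∈ F ×ˢ range (2 ^ (i + 1) + 1), f u := by
      rw [← sum_filter_add_sum_filter_not _ (fun u => u ∈ F ×ˢ range (2 ^ (i + 1) + 1))]
      have h2 : ∑ u ∈ ((E.Fam1 i).filter (fun u => u.1 * u.2 ∈ cell E.δ i k')).filter
          (fun u => ¬ u ∈ F ×ˢ range (2 ^ (i + 1) + 1)), f u = 0 := by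
        refine sum_eq_zero fun u hu => ?_
        rw [mem_filter] at hu
        have h3 : ¬ (u.1 ∈ E.Us i k ∧ V u.1 = true) := by
          rintro h4
          apply hu.2
          rw [mem_product]
          refine ⟨?_, ?_⟩
          · rw [hF, mem_filter]; exact h4
          · have h5 := (mem_filter.1 hu.1).1
            unfold KEnv.Fam1 at h5
            exact (mem_product.1 (mem_filter.1 h5).1).2
        rw [hf]
        dsimp only
        rw [if_neg h3, zero_mul]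
      rw [h2, add_zero]
      refine sum_le_sum_of_subset_of_nonneg (fun u hu => (mem_filter.1 hu).2) fun u _ _ => hf0 u
    refine h1.trans ?_
    rw [sum_product]
    have h2 : ∀ v ∈ F, ∑ q ∈ range (2 ^ (i + 1) + 1), f (v, q) ≤
        E.al * ww E.δ i / E.Om1 V i k * (v : ℝ) ^ (-(1 / 2 : ℝ) - d1) := by
      intro v hv
      rw [hF, mem_filter] at hv
      have hv0 := (vr_mem (E.us_sub i hi k hk hv.1)).2
      have e1 : ∀ q ∈ range (2 ^ (i + 1) + 1), f (v, q) = E.al * ww E.δ i / E.Om1 V i k * (v : ℝ) ^ (-(1 / 2 : ℝ) - d1) *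
          (if q ∈ E.Lq i c v then 1 / ((E.Lq i c v).card : ℝ) else 0) := by
        intro q _
        rw [hf]
        dsimp only
        rw [if_pos hv]
        have e2 : (v : ℝ) ^ (-(1 / 2 : ℝ) - d1) = (v : ℝ) ^ (dd - d1) * (v : ℝ) ^ (-(1 / 2 : ℝ) - dd) := by
          rw [← Real.rpow_add hv0]
          congr 1
          ring
        rw [e2]
        ring
      rw [sum_congr rfl e1, ← mul_sum]
      have h3 : (∑ q ∈ range (2 ^ (i + 1) + 1), if q ∈ E.Lq i c v then 1 / ((E.Lq i c v).card : ℝ) else 0) ≤ 1 := by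
        rw [← sum_filter, sum_const, nsmul_eq_mul]
        have h4 : ((range (2 ^ (i + 1) + 1)).filter (fun q => q ∈ E.Lq i c v)).card ≤ (E.Lq i c v).card :=
          card_le_card fun q hq => (mem_filter.1 hq).2
        rcases Nat.eq_zero_or_pos (E.Lq i c v).card with h5 | h5
        · rw [h5]
          simp
        · have h6 : (0 : ℝ) < ((E.Lq i c v).card : ℝ) := by exact_mod_cast h5
          rw [mul_one_div, div_le_one h6]
          exact_mod_cast h4
      have h7 : 0 ≤ E.al * ww E.δ i / E.Om1 V i k * (v : ℝ) ^ (-(1 / 2 : ℝ) - d1) :=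
        mul_nonneg (div_nonneg hal hO.le) (by positivity)
      calc _ ≤ E.al * ww E.δ i / E.Om1 V i k * (v : ℝ) ^ (-(1 / 2 : ℝ) - d1) * 1 := mul_le_mul_of_nonneg_left h3 h7
        _ = _ := mul_one _
    refine (sum_le_sum h2).trans ?_
    rw [← mul_sum]
    have e3 : ∑ v ∈ F, (v : ℝ) ^ (-(1 / 2 : ℝ) - d1) = E.Om1 V i k := rfl
    rw [e3]
    exact le_of_eq (div_mul_cancel₀ _ hO.ne')
  · refine le_of_eq (sum_eq_zero fun u hu => ?_)
    rw [mem_filter] at hu
    have h1 : ¬ u.2 ∈ E.Lq i c u.1 := fun h => hc (cell_unique (lq_mem h).2.2.1 hu.2)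
    rw [if_neg h1, mul_zero, mul_zero]
    simp

lemma part4 (E : KEnv) (V : ℕ → Bool) {i : ℕ} (hi : E.i₁ ≤ i) (hO : ∀ k ∈ E.B1 i, E.cu / 2 ≤ E.Om1 V i k) (k' : ℕ) :
    ∑ u ∈ (E.Fam1 i).filter (fun u => u.1 * u.2 ∈ cell E.δ i k'), E.g1 V i u * (u.1 : ℝ) ^ (-(1 / 2 : ℝ) - dd) ≤
    (if k' ∈ E.B1 i then E.al * ww E.δ i else if k' ∈ E.B2 i then 0 else E.B0 * (E.al * ww E.δ i)) := by
  have hal : 0 ≤ E.al * ww E.δ i := mul_nonneg (al_pos E).le (ww_nonneg _ _)
  have hcu := E.hcu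
  have e1 : ∀ u : ℕ × ℕ, E.g1 V i u * (u.1 : ℝ) ^ (-(1 / 2 : ℝ) - dd) = ∑ k ∈ E.B1 i,
      ((if u.1 ∈ E.Us i k ∧ V u.1 = true then E.al * ww E.δ i * ((u.1 : ℝ) ^ (dd - d1) / E.Om1 V i k *
        (if u.2 ∈ E.Lq i k u.1 then 1 / ((E.Lq i k u.1).card : ℝ) else 0)) else 0) * (u.1 : ℝ) ^ (-(1 / 2 : ℝ) - dd) +
      (if u.1 ∈ E.Us i k ∧ V u.1 = true then E.al * ww E.δ i * ((u.1 : ℝ) ^ (dd - d1) / E.Om1 V i k *
        (if u.2 ∈ E.Lq i (E.pi i k) u.1 then 1 / ((E.Lq i (E.pi i k) u.1).card : ℝ) else 0)) else 0) *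
          (u.1 : ℝ) ^ (-(1 / 2 : ℝ) - dd)) := by
    intro u
    rw [g1_eq, sum_mul]
    refine sum_congr rfl fun k _ => ?_
    rw [← add_mul]
    congr 1
    by_cases h1 : u.1 ∈ E.Us i k ∧ V u.1 = true
    · rw [if_pos h1, if_pos h1, if_pos h1]
      unfold X1
      ring
    · rw [if_neg h1, if_neg h1, if_neg h1, add_zero]
  simp_rw [e1]
  rw [sum_comm]
  have h2 : ∀ k ∈ E.B1 i, ∑ u ∈ (E.Fam1 i).filter (fun u => u.1 * u.2 ∈ cell E.δ i k'),
      ((if u.1 ∈ E.Us i k ∧ V u.1 = true then E.al * ww E.δ i * ((u.1 : ℝ) ^ (dd - d1) / E.Om1 V i k *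
        (if u.2 ∈ E.Lq i k u.1 then 1 / ((E.Lq i k u.1).card : ℝ) else 0)) else 0) * (u.1 : ℝ) ^ (-(1 / 2 : ℝ) - dd) +
      (if u.1 ∈ E.Us i k ∧ V u.1 = true then E.al * ww E.δ i * ((u.1 : ℝ) ^ (dd - d1) / E.Om1 V i k *
        (if u.2 ∈ E.Lq i (E.pi i k) u.1 then 1 / ((E.Lq i (E.pi i k) u.1).card : ℝ) else 0)) else 0) *
          (u.1 : ℝ) ^ (-(1 / 2 : ℝ) - dd)) ≤
      E.al * ww E.δ i * (if k = k' then 1 else 0) + E.al * ww E.δ i * (if E.pi i k = k' then 1 else 0) := by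
    intro k hk
    have hOk : 0 < E.Om1 V i k := by linarith [hO k hk]
    rw [sum_add_distrib]
    refine add_le_add ((P1 E V hi hk hOk).trans (le_of_eq ?_)) ((P1 E V hi hk hOk).trans (le_of_eq ?_))
    · split_ifs <;> ring
    · split_ifs <;> ring
  refine (sum_le_sum h2).trans ?_
  rw [sum_add_distrib, ← mul_sum, ← mul_sum, sum_ite_eq']
  have h3 : (∑ k ∈ E.B1 i, if E.pi i k = k' then (1 : ℝ) else 0) ≤ if k' ∈ E.B1 i ∪ E.B2 i then 0 else (E.B0 : ℝ) := by
    rw [sum_boole]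
    split_ifs with h4
    · have h5 : (E.B1 i).filter (fun k => E.pi i k = k') = ∅ := by
        rw [filter_eq_empty_iff]
        intro k hk hkk
        have h6 := (E.pi_good i hi k hk).2
        rw [hkk] at h6
        exact h6 h4
      rw [h5, card_empty, Nat.cast_zero]
    · exact_mod_cast E.pi_fib i hi k'
  have h7 := mul_le_mul_of_nonneg_left h3 hal
  refine (add_le_add le_rfl h7).trans ?_
  by_cases h8 : k' ∈ E.B1 i
  · rw [if_pos h8, if_pos h8, if_pos (mem_union_left _ h8)]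
    linarith
  · rw [if_neg h8, if_neg h8]
    by_cases h9 : k' ∈ E.B2 i
    · rw [if_pos h9, if_pos (mem_union_right _ h9)]
      linarith
    · rw [if_neg h9, if_neg (by rw [mem_union]; tauto)]
      linarith

lemma part5 (E : KEnv) (V : ℕ → Bool) {i : ℕ} (hi : E.i₁ ≤ i)
    (hO : ∀ k ∈ E.B2 i, E.cH / 2 * hh E.δ i / i ≤ E.Om2 V i k) (k' : ℕ) :
    ∑ u ∈ (E.Fam2 i).filter (fun u => u.1 * u.2 ∈ cell E.δ i k'), E.g2 V i u * (u.1 : ℝ) ^ (-(1 / 2 : ℝ) - dd) ≤
    (if k' ∈ E.B2 i then E.al * ww E.δ i else 0) := by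
  have hal : 0 ≤ E.al * ww E.δ i := mul_nonneg (al_pos E).le (ww_nonneg _ _)
  have hcH := E.hcH
  have hi0 : (0 : ℝ) < i := by
    have := E.hi₁.trans hi
    exact_mod_cast (by omega : 0 < i)
  have hh0 : (0 : ℝ) < hh E.δ i := by exact_mod_cast hh_pos E.δ i
  unfold KEnv.g2
  simp_rw [sum_mul]
  rw [sum_comm]
  have h2 : ∀ k ∈ E.B2 i, ∑ u ∈ (E.Fam2 i).filter (fun u => u.1 * u.2 ∈ cell E.δ i k'),
      (if u.1 * u.2 ∈ H2D E.δ i k ∧ lp (u.1 * u.2) = u.2 ∧ Vn V u.1 then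
        E.al * ww E.δ i * ((u.1 : ℝ) ^ (1 + dd - d1) / E.Om2 V i k) else 0) * (u.1 : ℝ) ^ (-(1 / 2 : ℝ) - dd) ≤
      if k = k' then E.al * ww E.δ i else 0 := by
    intro k hk
    have hkn : k < nc E.δ i := E.sub i k (mem_union_right _ hk)
    have hOm : 0 < E.Om2 V i k := lt_of_lt_of_le (by positivity) (hO k hk)
    split_ifs with hkk
    · set S := ((E.Fam2 i).filter (fun u => u.1 * u.2 ∈ cell E.δ i k')).filter
        (fun u => u.1 * u.2 ∈ H2D E.δ i k ∧ lp (u.1 * u.2) = u.2 ∧ Vn V u.1) with hS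
      have e1 : ∑ u ∈ (E.Fam2 i).filter (fun u => u.1 * u.2 ∈ cell E.δ i k'),
          (if u.1 * u.2 ∈ H2D E.δ i k ∧ lp (u.1 * u.2) = u.2 ∧ Vn V u.1 then
            E.al * ww E.δ i * ((u.1 : ℝ) ^ (1 + dd - d1) / E.Om2 V i k) else 0) * (u.1 : ℝ) ^ (-(1 / 2 : ℝ) - dd) =
          ∑ u ∈ S, E.al * ww E.δ i / E.Om2 V i k * (u.1 : ℝ) ^ (1 / 2 - d1) := by
        symm
        rw [hS, sum_filter]
        refine sum_congr rfl fun u hu => ?_
        by_cases h3 : u.1 * u.2 ∈ H2D E.δ i k ∧ lp (u.1 * u.2) = u.2 ∧ Vn V u.1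
        · rw [if_pos h3, if_pos h3]
          have h4 := h2d_mem hkn h3.1
          have h5 : (0 : ℝ) < u.1 := by
            have : u.1 ≠ 0 := fun h0 => h4.2.1 (by rw [h0, zero_mul])
            exact_mod_cast Nat.pos_of_ne_zero this
          have e2 : (u.1 : ℝ) ^ (1 / 2 - d1) = (u.1 : ℝ) ^ (1 + dd - d1) * (u.1 : ℝ) ^ (-(1 / 2 : ℝ) - dd) := by
            rw [← Real.rpow_add h5]
            congr 1
            ring
          rw [e2]
          ring
        · rw [if_neg h3, if_neg h3, zero_mul]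
      rw [e1, ← mul_sum]
      have h6 : ∑ u ∈ S, (u.1 : ℝ) ^ (1 / 2 - d1) ≤ E.Om2 V i k := by
        have hinv : ∀ u ∈ S, u.1 * u.2 / lp (u.1 * u.2) = u.1 := by
          intro u hu
          rw [hS, mem_filter] at hu
          have h4 := h2d_mem hkn hu.2.1
          rw [hu.2.2.1]
          have h5 : 0 < u.2 := by
            have : u.2 ≠ 0 := fun h0 => h4.2.1 (by rw [h0, mul_zero])
            exact Nat.pos_of_ne_zero this
          exact Nat.mul_div_cancel _ h5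
        have e3 : ∑ u ∈ S, (u.1 : ℝ) ^ (1 / 2 - d1) =
            ∑ n ∈ S.image (fun u => u.1 * u.2), ((n / lp n : ℕ) : ℝ) ^ (1 / 2 - d1) := by
          rw [sum_image]
          · refine sum_congr rfl fun u hu => ?_
            rw [hinv u hu]
          · intro u hu u' hu' huu
            dsimp only at huu
            have h7 := hinv u hu
            have h8 := hinv u' hu'
            rw [mem_coe, hS, mem_filter] at hu hu'
            refine Prod.ext ?_ ?_
            · rw [← h7, ← h8, huu]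
            · rw [← hu.2.2.1, ← hu'.2.2.1, huu]
        rw [e3]
        unfold KEnv.Om2
        refine sum_le_sum_of_subset_of_nonneg ?_ fun n _ _ => by positivity
        intro n hn
        obtain ⟨u, hu, rfl⟩ := mem_image.1 hn
        have h7 := hinv u hu
        rw [hS, mem_filter] at hu
        rw [mem_filter]
        refine ⟨hu.2.1, ?_⟩
        rw [h7]
        exact hu.2.2.2
      calc E.al * ww E.δ i / E.Om2 V i k * ∑ u ∈ S, (u.1 : ℝ) ^ (1 / 2 - d1)
          ≤ E.al * ww E.δ i / E.Om2 V i k * E.Om2 V i k := mul_le_mul_of_nonneg_left h6 (div_nonneg hal hOm.le)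
        _ = E.al * ww E.δ i := div_mul_cancel₀ _ hOm.ne'
    · refine le_of_eq (sum_eq_zero fun u hu => ?_)
      rw [mem_filter] at hu
      rw [if_neg, zero_mul]
      rintro ⟨h3, _⟩
      exact hkk (cell_unique (h2d_mem hkn h3).1 hu.2)
  refine (sum_le_sum h2).trans (le_of_eq ?_)
  rw [sum_ite_eq']

theorem t_DT : S_DT := by
  intro E
  have hal := al_pos E
  have hcu := E.hcu
  have hcq := E.hcq
  have hcH := E.hcH
  refine ⟨1 + E.al * (2 * (1 + E.B0) / (E.cu * E.cq)) + E.al * (2 / E.cH), ?_, fun j hj V hVp h1 h2 i hi => ?_⟩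
  · have : 0 ≤ E.al * (2 * (1 + E.B0) / (E.cu * E.cq)) := by positivity
    have : 0 ≤ E.al * (2 / E.cH) := by positivity
    linarith
  have hii := hj.trans hi
  have hO1 := h1 i hi
  have hO2 := h2 i hi
  refine ⟨fun q => part1 E V hii q, fun q => part2 E V q, fun u => ⟨g1_nonneg E V i u, ?_, g2_nonneg E V i u, ?_⟩,
    fun k' _ => part4 E V hii hO1 k', fun k' _ => part5 E V hii hO2 k'⟩
  · refine (part3a E V hii hO1 u).trans ?_
    have hT : 0 ≤ E.TT i u.1 := by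
      unfold KEnv.TT
      have := ww_nonneg E.δ i
      positivity
    split_ifs
    · refine mul_le_mul_of_nonneg_right ?_ hT
      have : 0 ≤ E.al * (2 / E.cH) := by positivity
      linarith
    · exact le_rfl
  · refine (part3b E V hii hO2 u).trans ?_
    have hT : 0 ≤ E.TT i u.1 := by
      unfold KEnv.TT
      have := ww_nonneg E.δ i
      positivity
    split_ifs
    · refine mul_le_mul_of_nonneg_right ?_ hT
      have : 0 ≤ E.al * (2 * (1 + E.B0) / (E.cu * E.cq)) := by positivity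
      linarith
    · exact le_rfl

end

end Pool.Agent.Q190.KZ
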