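import Pool.Agent.Q18.KZ.S3

set_option autoImplicit false

/-! Project KZ (helper18), jobs LPA, SPL, LPE: completely multiplicative majorants. -/

namespace Pool.Agent.Q190.KZ

open Finset Filter Topology MeasureTheory
open Pool.Agent.Q18.KZ
open Q236.CM (LP LP_one LP_mul LP_prime LP_nonneg LP_le)

theorem t_LPA : S_LPA := by
  intro a b ha hb n hn
  have ha2 : ∀ p, 0 ≤ 2 * a p := fun p => mul_nonneg zero_le_two (ha p)
  have hb2 : ∀ p, 0 ≤ 2 * b p := fun p => mul_nonneg zero_le_two (hb p)
  induction n using induction_on_primes with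
  | zero => exact absurd rfl hn
  | one => simp [LP_one]
  | prime_mul p m hp ih =>
    have hm : m ≠ 0 := right_ne_zero_of_mul hn
    have ih := ih hm
    rw [LP_mul _ hp.ne_zero hm, LP_prime _ hp]
    set R := ∑ l ∈ m.divisors, LP (fun p => 2 * a p) l * LP (fun p => 2 * b p) (m / l) with hR
    have h1 : (a p + b p) * LP (fun p => a p + b p) m ≤ (a p + b p) * R :=
      mul_le_mul_of_nonneg_left ih (add_nonneg (ha p) (hb p))
    refine h1.trans ?_
    -- the part with `p` in `l`
    have h2 : 2 * (a p * R) ≤ ∑ l ∈ (p * m).divisors, LP (fun p => 2 * a p) l * LP (fun p => 2 * b p) (p * m / l) := by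
      have e : 2 * (a p * R) = ∑ l ∈ m.divisors.image (fun l => p * l), LP (fun p => 2 * a p) l *
          LP (fun p => 2 * b p) (p * m / l) := by
        rw [sum_image fun x _ y _ hxy => Nat.eq_of_mul_eq_mul_left hp.pos hxy, hR, mul_sum, mul_sum]
        refine sum_congr rfl fun l hl => ?_
        have hl0 : l ≠ 0 := (Nat.pos_of_mem_divisors hl).ne'
        rw [Nat.mul_div_mul_left _ _ hp.pos, LP_mul _ hp.ne_zero hl0, LP_prime _ hp]
        ring
      rw [e]
      refine sum_le_sum_of_subset_of_nonneg ?_ fun l _ _ => mul_nonneg (LP_nonneg _ ha2 _) (LP_nonneg _ hb2 _)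
      intro l hl
      obtain ⟨l', hl', rfl⟩ := mem_image.1 hl
      rw [Nat.mem_divisors] at hl' ⊢
      exact ⟨Nat.mul_dvd_mul_left p hl'.1, hn⟩
    have h3 : 2 * (b p * R) ≤ ∑ l ∈ (p * m).divisors, LP (fun p => 2 * a p) l * LP (fun p => 2 * b p) (p * m / l) := by
      have e : 2 * (b p * R) = ∑ l ∈ m.divisors, LP (fun p => 2 * a p) l *
          LP (fun p => 2 * b p) (p * m / l) := by
        rw [hR, mul_sum, mul_sum]
        refine sum_congr rfl fun l hl => ?_
        have hlm := (Nat.mem_divisors.1 hl).1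
        have hml : m / l ≠ 0 := by
          have := Nat.div_pos (Nat.le_of_dvd (Nat.pos_of_ne_zero hm) hlm) (Nat.pos_of_mem_divisors hl)
          omega
        rw [Nat.mul_div_assoc _ hlm, LP_mul _ hp.ne_zero hml, LP_prime _ hp]
        ring
      rw [e]
      refine sum_le_sum_of_subset_of_nonneg ?_ fun l _ _ => mul_nonneg (LP_nonneg _ ha2 _) (LP_nonneg _ hb2 _)
      exact Nat.divisors_subset_of_dvd hn (dvd_mul_left _ _)
    linarith

theorem t_SPL : S_SPL := by
  intro s b hs hb n hn
  have hsb : ∀ p, 0 ≤ s p + b p := fun p => add_nonneg (hs p) (hb p)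
  induction n using induction_on_primes with
  | zero => exact absurd rfl hn
  | one => simp [LP_one]
  | prime_mul q m hq ih =>
    have hm : m ≠ 0 := right_ne_zero_of_mul hn
    have ih := ih hm
    have hq0 := hq.ne_zero
    rw [LP_mul _ hq0 hm, LP_prime _ hq, LP_mul s hq0 hm, LP_prime s hq]
    have e1 : ∑ p ∈ (q * m).primeFactors, ((q * m).factorization p : ℝ) * (b p * LP (fun p => s p + b p) (q * m / p)) =
        (∑ p ∈ (q * m).primeFactors, (q.factorization p : ℝ) * (b p * LP (fun p => s p + b p) (q * m / p))) +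
        ∑ p ∈ (q * m).primeFactors, (m.factorization p : ℝ) * (b p * LP (fun p => s p + b p) (q * m / p)) := by
      rw [← sum_add_distrib]
      refine sum_congr rfl fun p _ => ?_
      rw [Nat.factorization_mul hq0 hm, Finsupp.add_apply]
      push_cast
      ring
    have e2 : ∑ p ∈ (q * m).primeFactors, (q.factorization p : ℝ) * (b p * LP (fun p => s p + b p) (q * m / p)) =
        b q * LP (fun p => s p + b p) m := by
      rw [sum_eq_single q]
      · rw [hq.factorization_self, Nat.cast_one, one_mul, Nat.mul_div_cancel_left m hq.pos]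
      · intro p _ hpq
        rw [hq.factorization, Finsupp.single_apply, if_neg (Ne.symm hpq), Nat.cast_zero, zero_mul]
      · intro h
        exact absurd (Nat.mem_primeFactors.2 ⟨hq, dvd_mul_right _ _, hn⟩) h
    have h3 : s q * ∑ p ∈ m.primeFactors, (m.factorization p : ℝ) * (b p * LP (fun p => s p + b p) (m / p)) ≤
        ∑ p ∈ (q * m).primeFactors, (m.factorization p : ℝ) * (b p * LP (fun p => s p + b p) (q * m / p)) := by
      have hsub : m.primeFactors ⊆ (q * m).primeFactors := Nat.primeFactors_mono (dvd_mul_left _ _) hn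
      refine le_trans ?_ (sum_le_sum_of_subset_of_nonneg hsub fun p _ _ =>
        mul_nonneg (Nat.cast_nonneg _) (mul_nonneg (hb p) (LP_nonneg _ hsb _)))
      rw [mul_sum]
      refine sum_le_sum fun p hp => ?_
      obtain ⟨hpp, hpm, _⟩ := Nat.mem_primeFactors.1 hp
      have hmp : m / p ≠ 0 := by
        have := Nat.div_pos (Nat.le_of_dvd (Nat.pos_of_ne_zero hm) hpm) hpp.pos
        omega
      rw [Nat.mul_div_assoc _ hpm, LP_mul _ hq0 hmp, LP_prime _ hq]
      have h4 : s q * LP (fun p => s p + b p) (m / p) ≤ (s q + b q) * LP (fun p => s p + b p) (m / p) :=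
        mul_le_mul_of_nonneg_right (by linarith [hb q]) (LP_nonneg _ hsb _)
      have h5 : 0 ≤ (m.factorization p : ℝ) * b p := mul_nonneg (Nat.cast_nonneg _) (hb p)
      calc s q * ((m.factorization p : ℝ) * (b p * LP (fun p => s p + b p) (m / p)))
          = (m.factorization p : ℝ) * b p * (s q * LP (fun p => s p + b p) (m / p)) := by ring
        _ ≤ (m.factorization p : ℝ) * b p * ((s q + b q) * LP (fun p => s p + b p) (m / p)) :=
            mul_le_mul_of_nonneg_left h4 h5
        _ = _ := by ring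
    rw [e1, e2]
    have h6 := mul_le_mul_of_nonneg_left ih (hs q)
    have h7 : (s q + b q) * LP (fun p => s p + b p) m = s q * LP (fun p => s p + b p) m + b q * LP (fun p => s p + b p) m := by
      ring
    rw [h7]
    rw [mul_add] at h6
    linarith

/-- `LP` as a monoid homomorphism -/
noncomputable def LPh (F : ℕ → ℝ) : ℕ →* ℝ where
  toFun n := if n = 0 then 0 else LP F n
  map_one' := by simp [LP_one]
  map_mul' m n := by
    by_cases hm : m = 0
    · simp [hm]
    · by_cases hn : n = 0
      · simp [hn]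
      · simp only [hm, hn, mul_eq_zero, or_self, if_false]
        exact LP_mul F hm hn

lemma LPh_apply (F : ℕ → ℝ) {n : ℕ} (hn : n ≠ 0) : LPh F n = LP F n := by
  change (if n = 0 then 0 else LP F n) = LP F n
  rw [if_neg hn]

theorem t_LPE : S_LPE := by
  intro F hF M
  have hF0 : ∀ p, 0 ≤ F p := fun p => (hF p).1
  have hpr : ∀ {p : ℕ}, p.Prime → ‖LPh F p‖ < 1 := by
    intro p hp
    rw [LPh_apply F hp.ne_zero, LP_prime F hp, Real.norm_eq_abs, abs_of_nonneg (hF p).1]
    linarith [(hF p).2]
  obtain ⟨hsum, hhas⟩ := EulerProduct.summable_and_hasSum_smoothNumbers_prod_primesBelow_geometric (f := LPh F) hpr (M + 1)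
  rcases Nat.eq_zero_or_pos M with h0 | h0
  · subst h0
    simp only [show Icc 2 0 = (∅ : Finset ℕ) from rfl, sum_empty]
    have : 0 ≤ 2 * ∑ p ∈ (range (0 + 1)).filter Nat.Prime, F p := mul_nonneg zero_le_two (sum_nonneg fun p _ => hF0 p)
    linarith [Real.add_one_le_exp (2 * ∑ p ∈ (range (0 + 1)).filter Nat.Prime, F p)]
  have h1 : ∑ m ∈ Icc 1 M, LP F m ≤ ∏ p ∈ (M + 1).primesBelow, (1 - LPh F p)⁻¹ := by
    have hmem : ∀ m ∈ Icc 1 M, m ∈ (M + 1).smoothNumbers := by
      intro m hm
      rw [mem_Icc] at hm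
      rw [Nat.mem_smoothNumbers]
      refine ⟨by omega, fun p hp => ?_⟩
      have := Nat.le_of_mem_primeFactorsList hp
      omega
    have h2 := sum_le_hasSum ((Icc 1 M).attach.image (fun m => (⟨m.1, hmem m.1 m.2⟩ : (M + 1).smoothNumbers))) (fun m _ => ?_) hhas
    · refine le_trans (le_of_eq ?_) h2
      rw [sum_image]
      · rw [← sum_attach (Icc 1 M) (fun m => LP F m)]
        refine sum_congr rfl fun m _ => ?_
        have h6 : (m : ℕ) ≠ 0 := Nat.one_le_iff_ne_zero.1 (mem_Icc.1 m.2).1
        exact (LPh_apply F h6).symm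
      · intro x _ y _ hxy
        rw [Subtype.mk.injEq] at hxy
        exact Subtype.ext hxy
    · have hm0 : (m : ℕ) ≠ 0 := (Nat.mem_smoothNumbers.1 m.2).1
      rw [LPh_apply F hm0]
      exact LP_nonneg F hF0 _
  have h3 : ∏ p ∈ (M + 1).primesBelow, (1 - LPh F p)⁻¹ ≤ ∏ p ∈ (M + 1).primesBelow, Real.exp (2 * F p) := by
    refine prod_le_prod (fun p hp => ?_) fun p hp => ?_
    · have hpp := Nat.prime_of_mem_primesBelow hp
      rw [LPh_apply F hpp.ne_zero, LP_prime F hpp, inv_nonneg]
      linarith [(hF p).2]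
    · have hpp := Nat.prime_of_mem_primesBelow hp
      rw [LPh_apply F hpp.ne_zero, LP_prime F hpp]
      have h5 := (hF p).1
      have h6 := (hF p).2
      have h7 : (1 - F p)⁻¹ ≤ 1 + 2 * F p := by
        rw [inv_eq_one_div, div_le_iff₀ (by linarith)]
        nlinarith
      exact h7.trans (by linarith [Real.add_one_le_exp (2 * F p)])
  have h4 : ∏ p ∈ (M + 1).primesBelow, Real.exp (2 * F p) = Real.exp (2 * ∑ p ∈ (range (M + 1)).filter Nat.Prime, F p) := by
    rw [← Real.exp_sum, ← mul_sum]
    rfl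
  have h5 : ∑ m ∈ Icc 1 M, LP F m = 1 + ∑ m ∈ Icc 2 M, LP F m := by
    rw [← Finset.add_sum_Ioc_eq_sum_Icc h0, LP_one]
    rfl
  linarith

end Pool.Agent.Q190.KZ
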